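import Pool.Agent.GM97.GeometryLoc

/-!
# Motives of abelian varieties with an effective twisted dual

`DualSetting` adds to `Setting` the duality `N ↦ D(N) = Hom(N, ℤ(1)[2])` of the stable category
`DM(K)`.
-/

set_option linter.unusedSectionVars false

namespace GM97

open CategoryTheory Category Limits Preadditive Pretriangulated ZeroObject Triangulated Opposite

universe v u v₂ u₂ w

/-- The facts on motives and on the twisted duality `N ↦ D(N) = Hom(N, ℤ(1)[2])` that are used. -/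
structure DualSetting (DM : Type u) [Category.{v} DM] [HasZeroObject DM] [HasShift DM ℤ]
    [Preadditive DM] [∀ n : ℤ, (shiftFunctor DM n).Additive] [Pretriangulated DM]
    (Ab : Type u₂) [Category.{v₂} Ab] [Preadditive Ab] [HasFiniteBiproducts Ab]
    extends Setting.{v, u, v₂, u₂, w} DM Ab where
  /-- the geometric objects of `DM(K)`, generated by the `M(Y)(n)`, `n ∈ ℤ` -/
  geo : ObjectProperty DM
  /-- they form a triangulated subcategory -/
  geo_tri : geo.IsTriangulated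
  /-- closed under direct summands -/
  geo_ret : geo.IsStableUnderRetracts
  /-- which contains the `M(Y)` -/
  geo_M : ∀ Y : Var, geo (M Y)
  /-- `D(N) = Hom(N, ℤ(1)[2])` -/
  D : DMᵒᵖ ⥤ DM
  /-- `D` is additive -/
  D_add : D.Additive
  /-- `D(N[i]) = D(N)[-i]` -/
  D_shift : ∀ (N : DM) (i : ℤ), Nonempty (D.obj (op (N⟦i⟧)) ≅ (D.obj (op N))⟦-i⟧)
  /-- `D` preserves geometric objects -/
  D_geo : ∀ N : DM, geo N → geo (D.obj (op N))
  /-- `D` is fully faithful on geometric objects -/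
  D_bij : ∀ N N' : DM, geo N → geo N' →
    Function.Bijective (fun f : N ⟶ N' => (D.map f.op : D.obj (op N') ⟶ D.obj (op N)))
  /-- biduality -/
  D_D : ∀ N : DM, geo N → Nonempty (D.obj (op (D.obj (op N))) ≅ N)
  /-- `M(C)^*(1)[2] = M(C)` for a curve `C` -/
  D_curve : ∀ C : Var, IsCurve C → Nonempty (D.obj (op (M C)) ≅ M C)
  /-- `Hom(D(M(Y)), M(Z)[i]) = CH_1(Y × Z, -i) = 0` for `i > 0` -/
  D_neg : ∀ (Y Z : Var) (i : ℤ), 0 < i → ∀ f : D.obj (op (M Y)) ⟶ (M Z)⟦i⟧, f = 0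
  /-- `Hom(D(M(Y)), M(Z)) = CH_1(Y × Z)` is generated by normalisations of curves, that is by
  morphisms `D(M(Y)) ⟶ D(M(C)) = M(C) ⟶ M(Z)` -/
  D_cyc : ∀ (Y Z : Var) (f : D.obj (op (M Y)) ⟶ M Z),
    f ∈ Fac (fun N : DM => ∃ C : Var, IsCurve C ∧ Nonempty (N ≅ M C)) (D.obj (op (M Y))) (M Z)

variable {DM : Type u} [Category.{v} DM] [HasZeroObject DM] [HasShift DM ℤ]
    [Preadditive DM] [∀ n : ℤ, (shiftFunctor DM n).Additive] [Pretriangulated DM]
    {Ab : Type u₂} [Category.{v₂} Ab] [Preadditive Ab] [HasFiniteBiproducts Ab]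

lemma RightNeg.shift {S : ObjectProperty DM} {E : DM} (h : RightNeg S E) {i : ℤ} (hi : 0 ≤ i) :
    RightNeg S (E⟦i⟧) := by
  intro Z hZ j hj f
  let e : (E⟦i⟧)⟦j⟧ ≅ E⟦i + j⟧ := ((shiftFunctorAdd DM i j).app E).symm
  have h1 := h Z hZ (i + j) (by omega) (f ≫ e.hom)
  rw [← cancel_mono e.hom, h1, zero_comp]

/-- If `E` is in the thick closure of the negative class `S` and is right negative, then
`Hom(P, E[i]) = 0` for all left negative `P` and `i > 0`. -/
lemma hom_shift_eq_zero {S : ObjectProperty DM} (hS : ∀ Z, S Z → LeftNeg S Z) {P E : DM}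
    (hP : LeftNeg S P) (hE : S.triangEnvelope E) (hE' : RightNeg S E) {i : ℤ} (hi : 0 < i)
    (f : P ⟶ E⟦i⟧) : f = 0 := by
  have h1 : S.triangEnvelope (E⟦i⟧) :=
    (S.triangEnvelope).le_shift i _ hE
  have h2 := mem_fac_of_thick hS hP h1 (hE'.shift hi.le) f
  refine AddSubgroup.closure_induction (p := fun f _ => f = 0) ?_ rfl ?_ ?_ h2
  · rintro _ ⟨Z, hZ, a, b, rfl⟩
    rw [hE' Z hZ i hi b, comp_zero]
  · rintro x y _ _ rfl rfl
    exact add_zero 0
  · rintro x _ rfl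
    exact neg_zero

/-- `Fac` is monotone under factorisations of the members. -/
lemma Fac.mono {S S' : ObjectProperty DM} {X Y : DM}
    (h : ∀ Z, S Z → ∀ a : X ⟶ Z, a ∈ Fac S' X Z) {f : X ⟶ Y} (hf : f ∈ Fac S X Y) :
    f ∈ Fac S' X Y := by
  refine AddSubgroup.closure_induction (p := fun f _ => f ∈ Fac S' X Y) ?_ (zero_mem _)
    (fun _ _ _ _ => add_mem) (fun _ _ => neg_mem) hf
  rintro _ ⟨Z, hZ, a, b, rfl⟩
  exact Fac.comp_right (h Z hZ a) b

lemma rightNeg_of_fac {S S' : ObjectProperty DM} (h : ∀ Z, S' Z → RightNeg S Z) {X : DM}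
    (hX : 𝟙 X ∈ Fac S' X X) : RightNeg S X := by
  intro Z hZ i hi g
  have key : g ≫ (𝟙 X)⟦i⟧' = 0 := by
    refine AddSubgroup.closure_induction (p := fun (f : X ⟶ X) _ => g ≫ f⟦i⟧' = 0)
      ?_ ?_ ?_ ?_ hX
    · rintro _ ⟨N, hN, a, b, rfl⟩
      rw [Functor.map_comp, ← assoc, h N hN Z hZ i hi (g ≫ a⟦i⟧'), zero_comp]
    · rw [Functor.map_zero, comp_zero]
    · intro x y _ _ hx hy
      rw [Functor.map_add, comp_add, hx, hy, add_zero]
    · intro x _ hx
      rw [Functor.map_neg, comp_neg, hx, neg_zero]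
  rwa [(shiftFunctor DM i).map_id, comp_id] at key

namespace DualSetting

variable (T : DualSetting.{v, u, v₂, u₂, w} DM Ab)

/-- all smooth projective varieties -/
abbrev all : T.Var → Prop := fun _ => True

/-- `D(F_A)` is effective and without higher cohomology on smooth projective varieties: it lies in
the localizing subcategory generated by the motives `M(Y)` of smooth projective varieties, and
`Hom(M(Y), D(F_A)[i]) = 0` for all `Y` and `i > 0`. -/
def EffectiveDual [HasCoproducts.{w} DM] (A : Ab) : Prop :=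
  InLocalizing.{w} (T.motives T.all) (T.D.obj (op (T.F.obj A))) ∧
    RightNeg (T.motives T.all) (T.D.obj (op (T.F.obj A)))

variable {T}

lemma geo_of_thick {E : DM} (hE : (T.motives T.all).triangEnvelope E) : T.geo E := by
  have := T.geo_tri
  have := T.geo_ret
  have h1 : T.motives T.all ≤ T.geo := by
    rintro N ⟨Y, -, ⟨e⟩⟩
    exact T.geo.prop_of_retract (Retract.ofIso e) (T.geo_M Y)
  exact (ObjectProperty.triangEnvelope_le_iff _).2 h1 E hE

lemma geo_shift {N : DM} (hN : T.geo N) (i : ℤ) : T.geo (N⟦i⟧) := by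
  have := T.geo_tri
  exact T.geo.le_shift i _ hN

lemma leftNeg_D (Y : T.Var) : LeftNeg (T.motives T.all) (T.D.obj (op (T.M Y))) := by
  rintro N ⟨Z, -, ⟨e⟩⟩ i hi f
  have h := T.D_neg Y Z i hi (f ≫ e.hom⟦i⟧')
  rw [← cancel_mono (e.hom⟦i⟧'), h, zero_comp]

/-- `D` preserves sums of maps through motives of curves. -/
lemma D_map_fac {X Y : DM} {f : X ⟶ Y} (hf : f ∈ Fac (T.motives T.IsCurve) X Y) :
    (T.D.map f.op : T.D.obj (op Y) ⟶ T.D.obj (op X)) ∈
      Fac (T.motives T.IsCurve) (T.D.obj (op Y)) (T.D.obj (op X)) := by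
  have := T.D_add
  refine AddSubgroup.closure_induction (p := fun f _ =>
    (T.D.map f.op : T.D.obj (op Y) ⟶ T.D.obj (op X)) ∈
      Fac (T.motives T.IsCurve) (T.D.obj (op Y)) (T.D.obj (op X))) ?_ ?_ ?_ ?_ hf
  · rintro _ ⟨Z, ⟨C, hC, ⟨e⟩⟩, a, b, rfl⟩
    rw [op_comp, T.D.map_comp]
    obtain ⟨e'⟩ := T.D_curve C hC
    exact Fac.mem ⟨C, hC, ⟨(T.D.mapIso e.op).symm ≪≫ e'⟩⟩ _ _
  · rw [op_zero, T.D.map_zero]; exact zero_mem _
  · intro x y _ _ hx hy
    rw [op_add, T.D.map_add]; exact add_mem hx hy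
  · intro x _ hx
    rw [op_neg, T.D.map_neg]; exact neg_mem hx

lemma exists_D_hom {X : DM} {N' E : DM} (hN' : T.geo N') (hE : T.geo E)
    (e : T.D.obj (op N') ≅ X) (g : T.D.obj (op E) ⟶ X) :
    ∃ h : N' ⟶ E, g = T.D.map h.op ≫ e.hom := by
  obtain ⟨h, hh⟩ := (T.D_bij N' E hN' hE).2 (g ≫ e.inv)
  exact ⟨h, by rw [show T.D.map h.op = g ≫ e.inv from hh, assoc, e.inv_hom_id, comp_id]⟩

/-- If `F_A` is geometric then `D(F_A)` is left negative. -/
lemma leftNeg_DF {A : Ab} (hA : T.GeneratedBy T.all A) :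
    LeftNeg (T.motives T.all) (T.D.obj (op (T.F.obj A))) := by
  rintro N ⟨Y, -, ⟨e⟩⟩ i hi g
  obtain ⟨e₁⟩ := T.D_D (T.M Y) (T.geo_M Y)
  obtain ⟨e₂⟩ := T.D_shift (T.D.obj (op (T.M Y))) (-i)
  let e₃ : T.D.obj (op ((T.D.obj (op (T.M Y)))⟦-i⟧)) ≅ N⟦i⟧ :=
    e₂ ≪≫ (eqToIso (by rw [neg_neg])) ≪≫ (shiftFunctor DM i).mapIso (e₁ ≪≫ e.symm)
  obtain ⟨h, rfl⟩ := exists_D_hom (geo_shift (T.D_geo _ (T.geo_M Y)) (-i)) (geo_of_thick hA) e₃ g
  have h0 : h = 0 := shift_hom_eq_zero' (-i) i (by ring)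
    (hom_shift_eq_zero (Setting.neg_motives T.all) (leftNeg_D Y) hA (Setting.rightNeg_F T.all A) hi) h
  have := T.D_add
  rw [h0, op_zero, T.D.map_zero, zero_comp]

/-- If `F_A` is geometric then every morphism from `D(F_A)` to `M(Y)` is a sum of morphisms
through motives of curves. -/
lemma D_to_M {A : Ab} (hA : T.GeneratedBy T.all A) {N : DM} (hN : T.motives T.all N)
    (g : T.D.obj (op (T.F.obj A)) ⟶ N) :
    g ∈ Fac (T.motives T.IsCurve) (T.D.obj (op (T.F.obj A))) N := by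
  obtain ⟨Y, -, ⟨e⟩⟩ := hN
  obtain ⟨e₁⟩ := T.D_D (T.M Y) (T.geo_M Y)
  obtain ⟨h, rfl⟩ := exists_D_hom (T.D_geo _ (T.geo_M Y)) (geo_of_thick hA) (e₁ ≪≫ e.symm) g
  refine Fac.comp_right (D_map_fac ?_) _
  have h1 : h ∈ Fac (T.motives T.all) _ _ :=
    mem_fac_of_thick (Setting.neg_motives T.all) (leftNeg_D Y) hA (Setting.rightNeg_F T.all A) h
  refine Fac.mono ?_ h1
  rintro Z ⟨Z₀, -, ⟨e'⟩⟩ a
  have h2 : a ≫ e'.hom ∈ Fac (T.motives T.IsCurve) (T.D.obj (op (T.M Y))) (T.M Z₀) :=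
    T.D_cyc Y Z₀ _
  have h3 := Fac.comp_right h2 e'.inv
  rwa [assoc, e'.hom_inv_id, comp_id] at h3

variable [IsTriangulated DM]

lemma thick_of_fac {E : DM} (h : 𝟙 E ∈ Fac (T.motives T.IsCurve) E E) :
    (T.motives T.IsCurve).triangEnvelope E := by
  have : (T.motives T.IsCurve).Nonempty :=
    ObjectProperty.nonempty_of_prop (Setting.motives_mem T.line_curve)
  obtain ⟨W, hW, a, b, hab⟩ :=
    Setting.exists_factor (ObjectProperty.le_triangEnvelope (T.motives T.IsCurve)) h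
  let r : Retract E W := ⟨a, b, hab.symm⟩
  exact (T.motives T.IsCurve).triangEnvelope.prop_of_retract r hW

lemma motives_le_all : T.motives T.IsCurve ≤ T.motives T.all := by
  rintro N ⟨Y, -, e⟩
  exact ⟨Y, trivial, e⟩

variable [HasCoproducts.{w} DM]

/-- **Theorem.**  `A` is a direct summand of a product of Jacobians if and only if `F_A` is
geometric with effective dual. -/
theorem main (hgeo : ∀ N, T.geo N → IsCompactObj.{w} N) (A : Ab) :
    T.JacobianSummand A ↔ (T.GeneratedBy T.all A ∧ T.EffectiveDual A) := by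
  constructor
  · intro h
    have h1 := Setting.map_mem_fac (Setting.fac_of_jacobianSummand h)
    rw [T.F.map_id] at h1
    have h2 : 𝟙 (T.D.obj (op (T.F.obj A))) ∈ Fac (T.motives T.IsCurve) _ _ := by
      have := D_map_fac h1
      rwa [op_id, T.D.map_id] at this
    refine ⟨ObjectProperty.monotone_triangEnvelope motives_le_all _ (thick_of_fac h1),
      inLocalizing_of_thick
        (ObjectProperty.monotone_triangEnvelope motives_le_all _ (thick_of_fac h2)), ?_⟩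
    refine rightNeg_of_fac ?_ h2
    rintro N ⟨C, -, ⟨e⟩⟩ Z ⟨Y, -, ⟨e'⟩⟩ i hi f
    have h3 := T.neg Y C i hi (e'.inv ≫ f ≫ e.hom⟦i⟧')
    rw [← cancel_mono (e.hom⟦i⟧'), ← cancel_epi e'.inv, h3, zero_comp, comp_zero]
  · rintro ⟨hA, hD, hD'⟩
    have h1 : 𝟙 (T.D.obj (op (T.F.obj A))) ∈ Fac (T.motives T.all) _ _ :=
      mem_fac_of_localizing (Setting.neg_motives T.all)
        (Setting.compact_motives (fun Y => hgeo _ (T.geo_M Y)) T.all)
        (hgeo _ (T.D_geo _ (geo_of_thick hA))) (leftNeg_DF hA) hD hD' _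
    have h2 : 𝟙 (T.D.obj (op (T.F.obj A))) ∈ Fac (T.motives T.IsCurve) _ _ :=
      Fac.mono (fun Z hZ a => D_to_M hA hZ a) h1
    have h3 := D_map_fac h2
    rw [op_id, T.D.map_id] at h3
    obtain ⟨e⟩ := T.D_D (T.F.obj A) (geo_of_thick hA)
    have h4 : 𝟙 (T.F.obj A) ∈ Fac (T.motives T.IsCurve) _ _ := by
      have := Fac.comp_left e.inv (Fac.comp_right h3 e.hom)
      rwa [id_comp, e.inv_hom_id] at this
    exact ((Setting.main A).2.out 0 2).1 (thick_of_fac h4)

/-- If `F_A` is geometric and `D(F_A) = F_B` with `F_B` effective then `A` is a direct summand of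
a product of Jacobians. -/
theorem jacobianSummand_of_dual (hgeo : ∀ N, T.geo N → IsCompactObj.{w} N) {A B : Ab}
    (hA : T.GeneratedBy T.all A) (hB : T.LocallyGeneratedBy T.all B)
    (e : T.D.obj (op (T.F.obj A)) ≅ T.F.obj B) :
    T.JacobianSummand A := by
  refine (main hgeo A).2 ⟨hA, ?_, ?_⟩
  · intro Q h1 h2 h3 h4
    exact Q.prop_of_retract (Retract.ofIso e) (hB Q h1 h2 h3 h4)
  · intro Z hZ i hi f
    have h := Setting.rightNeg_F T.all B Z hZ i hi (f ≫ e.hom⟦i⟧')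
    rw [← cancel_mono (e.hom⟦i⟧'), h, zero_comp]

end DualSetting

end GM97
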