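import Pool.Agent.GM97.Thick

/-!
# Motives of abelian varieties and of curves

`Setting` collects the (published) facts about Voevodsky's category `DM^eff(K)` which are used:
`K` is an algebraically closed field, `DM = DM^eff_-(K)`, `Ab` the category of abelian varieties
over `K`, `Var` the smooth projective connected varieties over `K`.
-/

namespace GM97

open CategoryTheory Category Limits Preadditive Pretriangulated ZeroObject Triangulated

universe v u v₂ u₂ w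

/-- The facts on motives that are used. -/
structure Setting (DM : Type u) [Category.{v} DM] [HasZeroObject DM] [HasShift DM ℤ]
    [Preadditive DM] [∀ n : ℤ, (shiftFunctor DM n).Additive] [Pretriangulated DM]
    (Ab : Type u₂) [Category.{v₂} Ab] [Preadditive Ab] [HasFiniteBiproducts Ab] where
  /-- smooth projective connected varieties over `K` -/
  Var : Type w
  /-- the motive `M(Y)` -/
  M : Var → DM
  /-- the point `Spec K` -/
  pt : Var
  /-- `M(Y) ⟶ M(Spec K)` induced by the structure morphism of `Y` -/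
  str : ∀ Y : Var, M Y ⟶ M pt
  /-- `Hom(M(Y), ℤ) = ℤ`, as `Y` is connected -/
  str_fac : ∀ (Y : Var) (f : M Y ⟶ M pt), ∃ c : M pt ⟶ M pt, f = str Y ≫ c
  /-- `Hom(M(Y), M(Z)[i]) = CH^{dim Z}(Y × Z, -i) = 0` for `i > 0` -/
  neg : ∀ (Y Z : Var) (i : ℤ), 0 < i → ∀ f : M Y ⟶ (M Z)⟦i⟧, f = 0
  /-- `A ↦ F_A`, the sheaf with transfers `S ↦ Mor(S, A)` placed in degree `0` -/
  F : Ab ⥤ DM
  /-- `F` is additive -/
  F_add : F.Additive
  /-- `Hom(M(Y), F_A[i]) = H^i_Nis(Y, F_A) = 0` for `i > 0` -/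
  flasque : ∀ (Y : Var) (A : Ab) (i : ℤ), 0 < i → ∀ f : M Y ⟶ (F.obj A)⟦i⟧, f = 0
  /-- the Albanese variety -/
  Alb : Var → Ab
  /-- the Albanese map of a pointed variety -/
  alb : ∀ Y : Var, M Y ⟶ F.obj (Alb Y)
  /-- `Hom(M(Y), F_A) = Mor(Y, A)`: a morphism `Y → A` is a translate of the composite of the
  Albanese map with a homomorphism `Alb(Y) → A` -/
  univ : ∀ (Y : Var) (A : Ab) (f : M Y ⟶ F.obj A), ∃ (φ : Alb Y ⟶ A) (c : M pt ⟶ F.obj A),
    f = alb Y ≫ F.map φ + str Y ≫ c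
  /-- a homomorphism `Alb(Y) → A` which is constant on `Y` is zero -/
  unique : ∀ (Y : Var) (A : Ab) (φ : Alb Y ⟶ A) (c : M pt ⟶ F.obj A),
    alb Y ≫ F.map φ = str Y ≫ c → φ = 0
  /-- the variety underlying an abelian variety -/
  und : Ab → Var
  /-- an abelian variety is its own Albanese variety -/
  undIso : ∀ A : Ab, Alb (und A) ≅ A
  /-- smooth projective connected curves -/
  IsCurve : Var → Prop
  /-- `M(C) = ℤ ⊕ F_{J(C)} ⊕ ℤ(1)[2]` -/
  curve : ∀ C : Var, IsCurve C → Retract (F.obj (Alb C)) (M C)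
  /-- the projective line -/
  line : Var
  /-- the projective line is a curve -/
  line_curve : IsCurve line

section

variable {C : Type u} [Category.{v} C] [Preadditive C]

/-- The subgroup generated by the factorisations through `S` consists of finite sums. -/
lemma Fac.exists_sum {S : ObjectProperty C} {X Y : C} {f : X ⟶ Y} (hf : f ∈ Fac S X Y) :
    ∃ (ι : Type) (_ : Fintype ι) (Z : ι → C) (_ : ∀ i, S (Z i)) (a : ∀ i, X ⟶ Z i)
      (b : ∀ i, Z i ⟶ Y), f = ∑ i, a i ≫ b i := by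
  refine AddSubgroup.closure_induction (p := fun f _ => ∃ (ι : Type) (_ : Fintype ι) (Z : ι → C)
    (_ : ∀ i, S (Z i)) (a : ∀ i, X ⟶ Z i) (b : ∀ i, Z i ⟶ Y), f = ∑ i, a i ≫ b i)
    ?_ ?_ ?_ ?_ hf
  · rintro _ ⟨Z, hZ, a, b, rfl⟩
    exact ⟨Unit, inferInstance, fun _ => Z, fun _ => hZ, fun _ => a, fun _ => b, by simp⟩
  · exact ⟨Empty, inferInstance, Empty.elim, fun i => i.elim, fun i => i.elim,
      fun i => i.elim, by simp⟩
  · rintro x y _ _ ⟨ι, _, Z, hZ, a, b, rfl⟩ ⟨ι', _, Z', hZ', a', b', rfl⟩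
    refine ⟨ι ⊕ ι', inferInstance, Sum.elim Z Z', fun i => ?_, fun i => ?_, fun i => ?_, ?_⟩
    · rcases i with i | i
      exacts [hZ i, hZ' i]
    · rcases i with i | i
      exacts [a i, a' i]
    · rcases i with i | i
      exacts [b i, b' i]
    · rw [Fintype.sum_sum_type]
      rfl
  · rintro x _ ⟨ι, _, Z, hZ, a, b, rfl⟩
    refine ⟨ι, inferInstance, Z, hZ, a, fun i => -b i, ?_⟩
    simp [comp_neg]

end

variable {DM : Type u} [Category.{v} DM] [HasZeroObject DM] [HasShift DM ℤ]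
    [Preadditive DM] [∀ n : ℤ, (shiftFunctor DM n).Additive] [Pretriangulated DM]
    {Ab : Type u₂} [Category.{v₂} Ab] [Preadditive Ab] [HasFiniteBiproducts Ab]

namespace Setting

variable (T : Setting DM Ab)

/-- The objects isomorphic to `M(Y)` with `Y` in the class `V`. -/
def motives (V : T.Var → Prop) : ObjectProperty DM :=
  fun N => ∃ Y : T.Var, V Y ∧ Nonempty (N ≅ T.M Y)

/-- `F_A` is in the thick triangulated subcategory generated by the `M(Y)` with `Y` in `V`. -/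
def GeneratedBy (V : T.Var → Prop) (A : Ab) : Prop :=
  (T.motives V).triangEnvelope (T.F.obj A)

/-- `A` is a direct summand of a finite product of Jacobians of curves. -/
def JacobianSummand (A : Ab) : Prop :=
  ∃ (ι : Type) (_ : Fintype ι) (C : ι → T.Var), (∀ i, T.IsCurve (C i)) ∧
    Nonempty (Retract A (⨁ fun i => T.Alb (C i)))

variable {T}

lemma motives_mem {V : T.Var → Prop} {Y : T.Var} (hY : V Y) : T.motives V (T.M Y) :=
  ⟨Y, hY, ⟨Iso.refl _⟩⟩

lemma leftNeg_M (V : T.Var → Prop) (Y : T.Var) : LeftNeg (T.motives V) (T.M Y) := by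
  rintro N ⟨Z, -, ⟨e⟩⟩ i hi f
  have h := T.neg Y Z i hi (f ≫ e.hom⟦i⟧')
  rw [← cancel_mono (e.hom⟦i⟧'), h, zero_comp]

lemma neg_motives (V : T.Var → Prop) : ∀ N, T.motives V N → LeftNeg (T.motives V) N := by
  rintro N ⟨Y, -, ⟨e⟩⟩
  exact (leftNeg_M V Y).of_iso e.symm

lemma rightNeg_F (V : T.Var → Prop) (A : Ab) : RightNeg (T.motives V) (T.F.obj A) := by
  rintro N ⟨Y, -, ⟨e⟩⟩ i hi f
  have h := T.flasque Y A i hi (e.inv ≫ f)
  rw [← cancel_epi e.inv, h, comp_zero]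

/-- Every morphism `M(Y) ⟶ F_A` is a sum of morphisms through motives from `V`. -/
lemma mem_fac {V : T.Var → Prop} {A : Ab} (h : T.GeneratedBy V A) (Y : T.Var)
    (f : T.M Y ⟶ T.F.obj A) : f ∈ Fac (T.motives V) (T.M Y) (T.F.obj A) :=
  mem_fac_of_thick (neg_motives V) (leftNeg_M V Y) h (rightNeg_F V A) f

/-- Composition of a correspondence with a morphism to an abelian variety. -/
lemma comp_eq {Y Z : T.Var} {A : Ab} (a : T.M Y ⟶ T.M Z) (b : T.M Z ⟶ T.F.obj A) :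
    ∃ (ψ : T.Alb Y ⟶ T.Alb Z) (φ : T.Alb Z ⟶ A) (c : T.M T.pt ⟶ T.F.obj A)
      (c' : T.M T.pt ⟶ T.F.obj (T.Alb Z)),
      a ≫ T.alb Z = T.alb Y ≫ T.F.map ψ + T.str Y ≫ c' ∧
      a ≫ b = T.alb Y ≫ T.F.map (ψ ≫ φ) + T.str Y ≫ c := by
  obtain ⟨φ, c₁, hb⟩ := T.univ Z A b
  obtain ⟨ψ, c₂, ha⟩ := T.univ Y (T.Alb Z) (a ≫ T.alb Z)
  obtain ⟨c₃, hs⟩ := T.str_fac Y (a ≫ T.str Z)
  refine ⟨ψ, φ, c₂ ≫ T.F.map φ + c₃ ≫ c₁, c₂, ha, ?_⟩
  rw [hb, comp_add, ← assoc, ha, ← assoc, hs]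
  simp only [add_comp, comp_add, assoc, Functor.map_comp]
  abel

/-- the Albanese map `M(A) ⟶ F_A` of an abelian variety -/
def albA (T : Setting DM Ab) (A : Ab) : T.M (T.und A) ⟶ T.F.obj A :=
  T.alb (T.und A) ≫ T.F.map (T.undIso A).hom

/-- `A` is generated by the Albanese varieties of `V` through correspondences: the identity of `A`
is a finite sum `∑ ψ_i ≫ φ_i` with `ψ_i : A ⟶ Alb(Y_i)`, `φ_i : Alb(Y_i) ⟶ A`, `Y_i` in `V`, where
`ψ_i` is induced by a correspondence `g_i : M(A) ⟶ M(Y_i)` (up to a constant). -/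
def AlbaneseSum (T : Setting DM Ab) (V : T.Var → Prop) (A : Ab) : Prop :=
  ∃ (ι : Type) (_ : Fintype ι) (Y : ι → T.Var) (g : ∀ i, T.M (T.und A) ⟶ T.M (Y i))
    (ψ : ∀ i, A ⟶ T.Alb (Y i)) (φ : ∀ i, T.Alb (Y i) ⟶ A),
    (∀ i, V (Y i)) ∧
    (∀ i, ∃ c : T.M T.pt ⟶ T.F.obj (T.Alb (Y i)),
      g i ≫ T.alb (Y i) = T.albA A ≫ T.F.map (ψ i) + T.str (T.und A) ≫ c) ∧
    𝟙 A = ∑ i, ψ i ≫ φ i

/-- If the Albanese map of `A` is a sum of maps through motives from `V`, then `id_A` is a sum of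
maps through Albanese varieties. -/
theorem albaneseSum_of_mem_fac {V : T.Var → Prop} {A : Ab}
    (h : T.albA A ∈ Fac (T.motives V) (T.M (T.und A)) (T.F.obj A)) : T.AlbaneseSum V A := by
  have := T.F_add
  obtain ⟨ι, hι, N, hN, a, b, hab⟩ := Fac.exists_sum h
  choose Y hY e using hN
  let e' : ∀ i, N i ≅ T.M (Y i) := fun i => (e i).some
  choose ψ φ c c' h1 h2 using fun i => comp_eq (a i ≫ (e' i).hom) ((e' i).inv ≫ b i)
  refine ⟨ι, hι, Y, fun i => a i ≫ (e' i).hom, fun i => (T.undIso A).inv ≫ ψ i, φ, hY, ?_, ?_⟩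
  · intro i
    refine ⟨c' i, ?_⟩
    have h7 : T.albA A ≫ T.F.map ((T.undIso A).inv ≫ ψ i) = T.alb (T.und A) ≫ T.F.map (ψ i) := by
      rw [albA, assoc, ← T.F.map_comp, Iso.hom_inv_id_assoc]
    exact (h1 i).trans (congrArg (· + T.str (T.und A) ≫ c' i) h7.symm)
  · have h3 : T.alb (T.und A) ≫ T.F.map (T.undIso A).hom =
        T.alb (T.und A) ≫ T.F.map (∑ i, ψ i ≫ φ i) + T.str (T.und A) ≫ ∑ i, c i := by
      rw [← albA, hab, Functor.map_sum, comp_sum, comp_sum, ← Finset.sum_add_distrib]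
      refine Finset.sum_congr rfl fun i _ => ?_
      rw [← h2 i, assoc, Iso.hom_inv_id_assoc]
    have h4 : (T.undIso A).hom - ∑ i, ψ i ≫ φ i = 0 := by
      refine T.unique (T.und A) A _ (∑ i, c i) ?_
      rw [Functor.map_sub, comp_sub, h3]
      abel
    have h5 : (T.undIso A).hom = ∑ i, ψ i ≫ φ i := sub_eq_zero.1 h4
    have h6 : 𝟙 A = (T.undIso A).inv ≫ ∑ i, ψ i ≫ φ i := by
      rw [← h5, Iso.inv_hom_id]
    rw [h6, comp_sum]
    refine Finset.sum_congr rfl fun i _ => ?_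
    rw [assoc]

/-- **Theorem.**  If `F_A` is in the thick subcategory generated by the `M(Y)`, `Y` in `V`, then
the identity of `A` is a finite sum `∑ ψ_i ≫ φ_i` with `ψ_i : A ⟶ Alb(Y_i)`, `Y_i` in `V`,
induced by a correspondence `g_i : M(A) ⟶ M(Y_i)`. -/
theorem albaneseSum_of_generatedBy {V : T.Var → Prop} {A : Ab} (h : T.GeneratedBy V A) :
    T.AlbaneseSum V A :=
  albaneseSum_of_mem_fac (mem_fac h (T.und A) (T.albA A))

/-- being in `Fac` of a class, for abelian varieties -/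
lemma jacobianSummand_of_fac {A : Ab}
    (h : 𝟙 A ∈ Fac (fun B : Ab => ∃ C : T.Var, T.IsCurve C ∧ Nonempty (B ≅ T.Alb C)) A A) :
    T.JacobianSummand A := by
  obtain ⟨ι, hι, N, hN, a, b, hab⟩ := Fac.exists_sum h
  choose C hC e using hN
  refine ⟨ι, hι, C, hC, ⟨⟨biproduct.lift fun i => a i ≫ (e i).some.hom,
    biproduct.desc fun i => (e i).some.inv ≫ b i, ?_⟩⟩⟩
  rw [biproduct.lift_desc, hab]
  refine Finset.sum_congr rfl fun i _ => ?_
  rw [assoc, Iso.hom_inv_id_assoc]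

lemma fac_of_jacobianSummand {A : Ab} (h : T.JacobianSummand A) :
    𝟙 A ∈ Fac (fun B : Ab => ∃ C : T.Var, T.IsCurve C ∧ Nonempty (B ≅ T.Alb C)) A A := by
  obtain ⟨ι, hι, C, hC, ⟨r⟩⟩ := h
  have h1 : 𝟙 A = ∑ i, (r.i ≫ biproduct.π _ i) ≫ (biproduct.ι (fun i => T.Alb (C i)) i ≫ r.r) := by
    rw [← r.retract]
    have h2 : r.i ≫ r.r = r.i ≫ (∑ i, biproduct.π (fun i => T.Alb (C i)) i ≫
        biproduct.ι (fun i => T.Alb (C i)) i) ≫ r.r := by
      rw [biproduct.total, id_comp]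
    rw [h2, sum_comp, comp_sum]
    refine Finset.sum_congr rfl fun i _ => ?_
    simp only [assoc]
  rw [h1]
  exact sum_mem fun i _ => Fac.mem ⟨C i, hC i, ⟨Iso.refl _⟩⟩ _ _

theorem jacobianSummand_of_albaneseSum {V : T.Var → Prop}
    (hV : ∀ Y, V Y → T.JacobianSummand (T.Alb Y)) {A : Ab} (h : T.AlbaneseSum V A) :
    T.JacobianSummand A := by
  obtain ⟨ι, hι, Y, g, ψ, φ, hY, -, hid⟩ := h
  refine jacobianSummand_of_fac ?_
  rw [hid]
  refine sum_mem fun i _ => ?_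
  have := Fac.comp_left (ψ i) (Fac.comp_right (fac_of_jacobianSummand (hV _ (hY i))) (φ i))
  rwa [id_comp] at this

lemma jacobianSummand_curve {C : T.Var} (hC : T.IsCurve C) : T.JacobianSummand (T.Alb C) := by
  refine jacobianSummand_of_fac ?_
  have := Fac.mem (S := fun B : Ab => ∃ C : T.Var, T.IsCurve C ∧ Nonempty (B ≅ T.Alb C))
    (Z := T.Alb C) ⟨C, hC, ⟨Iso.refl _⟩⟩ (𝟙 _) (𝟙 _)
  rwa [id_comp] at this

/-- Morphisms in `Fac S` factor through any class containing `S` which is closed under sums. -/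
lemma exists_factor {S Q : ObjectProperty DM} (hSQ : S ≤ Q) [Q.IsTriangulated]
    [Q.IsStableUnderRetracts] {X Y : DM} {f : X ⟶ Y} (hf : f ∈ Fac S X Y) :
    ∃ (W : DM) (_ : Q W) (a : X ⟶ W) (b : W ⟶ Y), f = a ≫ b := by
  refine AddSubgroup.closure_induction (p := fun f _ => ∃ (W : DM) (_ : Q W) (a : X ⟶ W)
    (b : W ⟶ Y), f = a ≫ b) ?_ ?_ ?_ ?_ hf
  · rintro _ ⟨Z, hZ, a, b, rfl⟩
    exact ⟨Z, hSQ Z hZ, a, b, rfl⟩
  · exact ⟨0, Q.prop_zero, 0, 0, by simp⟩
  · rintro x y _ _ ⟨W, hW, a, b, rfl⟩ ⟨W', hW', a', b', rfl⟩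
    refine ⟨W ⊞ W', ?_, biprod.lift a a', biprod.desc b b', by rw [biprod.lift_desc]⟩
    exact Q.ext_of_isTriangulatedClosed₂ _ (binaryBiproductTriangle_distinguished W W') hW hW'
  · rintro x _ ⟨W, hW, a, b, rfl⟩
    exact ⟨W, hW, a, -b, by rw [comp_neg]⟩

/-- `F` maps sums of maps through Jacobians to sums of maps through motives of curves. -/
lemma map_mem_fac {A B : Ab} {f : A ⟶ B}
    (hf : f ∈ Fac (fun B : Ab => ∃ C : T.Var, T.IsCurve C ∧ Nonempty (B ≅ T.Alb C)) A B) :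
    T.F.map f ∈ Fac (T.motives T.IsCurve) (T.F.obj A) (T.F.obj B) := by
  have := T.F_add
  refine AddSubgroup.closure_induction (p := fun f _ =>
    T.F.map f ∈ Fac (T.motives T.IsCurve) (T.F.obj A) (T.F.obj B)) ?_ ?_ ?_ ?_ hf
  · rintro _ ⟨Z, ⟨C, hC, ⟨e⟩⟩, a, b, rfl⟩
    have h1 : T.F.map (a ≫ b) = (T.F.map (a ≫ e.hom) ≫ (T.curve C hC).i) ≫
        ((T.curve C hC).r ≫ T.F.map (e.inv ≫ b)) := by
      have h2 := (T.curve C hC).retract
      rw [assoc, ← assoc (T.curve C hC).i, h2, id_comp, ← Functor.map_comp, assoc,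
        Iso.hom_inv_id_assoc]
    rw [h1]
    exact Fac.mem (motives_mem hC) _ _
  · rw [Functor.map_zero]; exact zero_mem _
  · intro x y _ _ hx hy
    rw [Functor.map_add]; exact add_mem hx hy
  · intro x _ hx
    rw [Functor.map_neg]; exact neg_mem hx

variable [IsTriangulated DM]

/-- A direct summand of a product of Jacobians is generated by curves. -/
theorem generatedBy_of_jacobianSummand {A : Ab} (h : T.JacobianSummand A) :
    T.GeneratedBy T.IsCurve A := by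
  have : (T.motives T.IsCurve).Nonempty :=
    ObjectProperty.nonempty_of_prop (motives_mem T.line_curve)
  have h1 := map_mem_fac (fac_of_jacobianSummand h)
  rw [T.F.map_id] at h1
  obtain ⟨W, hW, a, b, hab⟩ :=
    exists_factor (ObjectProperty.le_triangEnvelope (T.motives T.IsCurve)) h1
  let r : Retract (T.F.obj A) W := ⟨a, b, hab.symm⟩
  exact (T.motives T.IsCurve).triangEnvelope.prop_of_retract r hW

/-- **Main theorem.** -/
theorem main (A : Ab) :
    (∀ V : T.Var → Prop, T.GeneratedBy V A → T.AlbaneseSum V A) ∧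
    List.TFAE [
      T.GeneratedBy T.IsCurve A,
      T.GeneratedBy (fun Y => T.JacobianSummand (T.Alb Y)) A,
      T.JacobianSummand A,
      T.albA A ∈ Fac (T.motives T.IsCurve) (T.M (T.und A)) (T.F.obj A)] := by
  refine ⟨fun V h => albaneseSum_of_generatedBy h, ?_⟩
  tfae_have 1 → 2 := by
    intro h
    refine ObjectProperty.monotone_triangEnvelope ?_ _ h
    rintro N ⟨C, hC, e⟩
    exact ⟨C, jacobianSummand_curve hC, e⟩
  tfae_have 2 → 3 := fun h =>
    jacobianSummand_of_albaneseSum (fun Y hY => hY) (albaneseSum_of_generatedBy h)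
  tfae_have 3 → 1 := generatedBy_of_jacobianSummand
  tfae_have 1 → 4 := fun h => mem_fac h _ _
  tfae_have 4 → 3 := fun h =>
    jacobianSummand_of_albaneseSum (fun Y hY => jacobianSummand_curve hY) (albaneseSum_of_mem_fac h)
  tfae_finish

end Setting

end GM97
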