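import Pool.Agent.GM97.Thick

/-!
# Morphisms into objects of a localizing subcategory generated by a negative class

The analogue of the main lemma of `Thick.lean` for the localizing subcategory (closed under
arbitrary coproducts) generated by a negative class of compact objects.
-/

set_option linter.unusedSectionVars false

namespace GM97

open CategoryTheory Category Limits Preadditive Pretriangulated ZeroObject Triangulated

universe w v u

variable {C : Type u} [Category.{v} C] [HasZeroObject C] [HasShift C ℤ] [Preadditive C]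
  [∀ n : ℤ, (shiftFunctor C n).Additive] [Pretriangulated C] [HasCoproducts.{w} C]

/-- Every morphism from `P` to a coproduct is a finite sum of morphisms to the summands. -/
def Small (P : C) : Prop :=
  ∀ (ι : Type w) (E : ι → C) (f : P ⟶ ∐ E),
    ∃ (J : Finset ι) (g : ∀ i, P ⟶ E i), f = ∑ i ∈ J, g i ≫ Sigma.ι E i

/-- `P` is compact: every morphism from a shift of `P` to a coproduct is a finite sum of
morphisms to the summands. -/
def IsCompactObj (P : C) : Prop := ∀ k : ℤ, Small.{w} (P⟦k⟧)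

/-- `E` lies in the localizing subcategory generated by `S`: the smallest triangulated
subcategory which contains `S` and is closed under direct summands and coproducts. -/
def InLocalizing (S : ObjectProperty C) (E : C) : Prop :=
  ∀ Q : ObjectProperty C, S ≤ Q → Q.IsTriangulated → Q.IsStableUnderRetracts →
    (∀ (ι : Type w) (X : ι → C), (∀ i, Q (X i)) → Q (∐ X)) → Q E

/-- The projection of a coproduct to a summand. -/
noncomputable def sigmaProj {ι : Type w} (E : ι → C) (i : ι) : ∐ E ⟶ E i :=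
  open Classical in
  Sigma.desc fun j => if h : j = i then eqToHom (by rw [h]) else 0

lemma sigma_ι_proj {ι : Type w} (E : ι → C) (i : ι) :
    Sigma.ι E i ≫ sigmaProj E i = 𝟙 (E i) := by
  simp [sigmaProj]

lemma sigma_ι_proj_ne {ι : Type w} (E : ι → C) {i j : ι} (h : j ≠ i) :
    Sigma.ι E j ≫ sigmaProj E i = 0 := by
  simp [sigmaProj, h]

/-- the summands of a vanishing finite sum vanish -/
lemma comp_eq_zero_of_sum {ι : Type w} {E : ι → C} {X : C} {J : Finset ι}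
    {g : ∀ i, X ⟶ E i} (h : ∑ i ∈ J, g i ≫ Sigma.ι E i = 0) {i : ι} (hi : i ∈ J) : g i = 0 := by
  have h1 : (∑ j ∈ J, g j ≫ Sigma.ι E j) ≫ sigmaProj E i = g i := by
    rw [sum_comp, Finset.sum_eq_single i]
    · rw [assoc, sigma_ι_proj, comp_id]
    · intro j _ hj
      rw [assoc, sigma_ι_proj_ne E hj, comp_zero]
    · intro h; exact (h hi).elim
  rw [← h1, h, zero_comp]

lemma comp_zero_of_sum {W X Y : C} (z : W ⟶ X) (m : X ⟶ Y) (h0 : z ≫ m = 0)
    {ι : Type w} {E : ι → C} {f : Y ⟶ ∐ E} {J : Finset ι} {g : ∀ i, X ⟶ E i}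
    (hg : m ≫ f = ∑ i ∈ J, g i ≫ Sigma.ι E i) {i : ι} (hi : i ∈ J) : z ≫ g i = 0 := by
  have h3 : z ≫ m ≫ f = 0 := by rw [← assoc, h0, zero_comp]
  rw [hg, comp_sum] at h3
  refine comp_eq_zero_of_sum (J := J) (g := fun i => z ≫ g i) ?_ hi
  rw [← h3]
  exact Finset.sum_congr rfl fun i _ => assoc _ _ _

lemma Small.of_iso {P P' : C} (e : P ≅ P') (h : Small.{w} P) : Small.{w} P' := by
  intro ι E f
  obtain ⟨J, g, hg⟩ := h ι E (e.hom ≫ f)
  refine ⟨J, fun i => e.inv ≫ g i, ?_⟩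
  have h1 : f = e.inv ≫ e.hom ≫ f := by rw [e.inv_hom_id_assoc]
  rw [h1, hg, comp_sum]
  exact Finset.sum_congr rfl fun i _ => (assoc _ _ _).symm

lemma IsCompactObj.shift {P : C} (h : IsCompactObj.{w} P) (n : ℤ) :
    IsCompactObj.{w} (P⟦n⟧) := by
  intro k
  exact (h (n + k)).of_iso ((shiftFunctorAdd C n k).app P)

lemma IsCompactObj.of_iso {P P' : C} (e : P ≅ P') (h : IsCompactObj.{w} P) :
    IsCompactObj.{w} P' :=
  fun k => (h k).of_iso ((shiftFunctor C k).mapIso e)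

lemma Small.ext {T : Triangle C} (hT : T ∈ distTriang C) (h₁ : Small.{w} T.obj₁)
    (h₃ : Small.{w} T.obj₃) : Small.{w} T.obj₂ := by
  classical
  intro ι E f
  have hk1 : T.invRotate ∈ distTriang C := inv_rot_of_distTriang _ hT
  obtain ⟨J, g, hg⟩ := h₁ ι E (T.mor₁ ≫ f)
  -- the restrictions extend
  have h2 : ∀ i ∈ J, ∃ g' : T.obj₂ ⟶ E i, g i = T.mor₁ ≫ g' := by
    intro i hi
    exact Triangle.yoneda_exact₂ _ hk1 (g i)
      (comp_zero_of_sum _ _ (comp_distTriang_mor_zero₁₂ _ hk1) hg hi)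
  choose! g' hg' using h2
  have h5 : T.mor₁ ≫ (f - ∑ i ∈ J, g' i ≫ Sigma.ι E i) = 0 := by
    rw [comp_sub, hg, comp_sum, sub_eq_zero]
    refine Finset.sum_congr rfl fun i hi => ?_
    rw [hg' i hi, assoc]
  obtain ⟨c, hc⟩ := Triangle.yoneda_exact₂ _ hT _ h5
  obtain ⟨J', g'', hg''⟩ := h₃ ι E c
  refine ⟨J ∪ J', fun i => (if i ∈ J then g' i else 0) +
    (if i ∈ J' then T.mor₂ ≫ g'' i else 0), ?_⟩
  have h6 : f = (∑ i ∈ J, g' i ≫ Sigma.ι E i) + T.mor₂ ≫ ∑ i ∈ J', g'' i ≫ Sigma.ι E i := by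
    rw [← hg'', ← hc]; abel
  rw [h6]
  simp only [add_comp]
  rw [Finset.sum_add_distrib]
  congr 1
  · rw [← Finset.sum_subset (Finset.subset_union_left (s₁ := J) (s₂ := J'))]
    · exact Finset.sum_congr rfl fun i hi => by rw [if_pos hi]
    · intro i _ hi
      rw [if_neg hi, zero_comp]
  · rw [← Finset.sum_subset (Finset.subset_union_right (s₁ := J) (s₂ := J')), comp_sum]
    · exact Finset.sum_congr rfl fun i hi => by rw [if_pos hi, assoc]
    · intro i _ hi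
      rw [if_neg hi, zero_comp]

/-- extensions of compact objects are compact -/
lemma IsCompactObj.ext {T : Triangle C} (hT : T ∈ distTriang C) (h₁ : IsCompactObj.{w} T.obj₁)
    (h₃ : IsCompactObj.{w} T.obj₃) : IsCompactObj.{w} T.obj₂ :=
  fun k => Small.ext (Triangle.shift_distinguished T hT k) (h₁ k) (h₃ k)

lemma IsCompactObj.zero : IsCompactObj.{w} (0 : C) := by
  intro k ι E f
  have h0 : IsZero ((0 : C)⟦k⟧) := (shiftFunctor C k).map_isZero (isZero_zero C)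
  exact ⟨∅, fun i => 0, h0.eq_of_src _ _⟩

variable {S : ObjectProperty C}

/-- `LiftC S E`: every morphism from a compact `LeftNeg` object to `E` factors through a compact
low object. -/
def LiftC (S : ObjectProperty C) (E : C) : Prop :=
  ∀ (P : C), IsCompactObj.{w} P → LeftNeg S P → ∀ f : P ⟶ E,
    ∃ (A : C) (_ : IsCompactObj.{w} A) (_ : Low S A) (a : P ⟶ A) (b : A ⟶ E), f = a ≫ b

lemma LiftC.retract {E E' : C} (r : Retract E E') (h : LiftC.{w} S E') : LiftC.{w} S E := by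
  intro P hPc hP f
  obtain ⟨A, hAc, hA, a, b, hab⟩ := h P hPc hP (f ≫ r.i)
  refine ⟨A, hAc, hA, a, b ≫ r.r, ?_⟩
  rw [← assoc, ← hab, assoc, r.retract, comp_id]

lemma liftC_shift_of_mem (hS : ∀ Z, S Z → LeftNeg S Z) (hc : ∀ Z, S Z → IsCompactObj.{w} Z)
    {Z : C} (hZ : S Z) (k : ℤ) : LiftC.{w} S (Z⟦k⟧) := by
  intro P _ hP f
  rcases le_or_gt k 0 with hk | hk
  · exact ⟨Z⟦k⟧, (hc Z hZ).shift k, low_shift hS hZ k hk, f, 𝟙 _, (comp_id _).symm⟩
  · have : f = 0 := hP Z hZ k hk f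
    refine ⟨Z⟦(0 : ℤ)⟧, (hc Z hZ).shift 0, low_shift hS hZ 0 le_rfl, 0, 0, ?_⟩
    rw [this, zero_comp]

/-- the shifted form of the lifting property -/
lemma LiftC.shift_one {E : C} (h : LiftC.{w} S E) {N : C}
    (hNc : IsCompactObj.{w} (N⟦(-1 : ℤ)⟧)) (hN : LeftNeg S (N⟦(-1 : ℤ)⟧))
    (l : N ⟶ E⟦(1 : ℤ)⟧) :
    ∃ (A : C) (_ : IsCompactObj.{w} A) (_ : Low S A) (a : N ⟶ A⟦(1 : ℤ)⟧) (b : A ⟶ E),
      l = a ≫ b⟦(1 : ℤ)⟧' := by
  let e : (N⟦(-1 : ℤ)⟧)⟦(1 : ℤ)⟧ ≅ N :=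
    (shiftFunctorCompIsoId C (-1 : ℤ) 1 (by norm_num)).app N
  obtain ⟨m, hm⟩ := (shiftFunctor C (1 : ℤ)).map_surjective (e.hom ≫ l)
  obtain ⟨A, hAc, hA, a, b, hab⟩ := h _ hNc hN m
  refine ⟨A, hAc, hA, e.inv ≫ a⟦(1 : ℤ)⟧', b, ?_⟩
  rw [assoc, ← Functor.map_comp, ← hab, hm, e.inv_hom_id_assoc]

/-- `LiftC` is closed under extensions -/
lemma LiftC.ext {T : Triangle C} (hT : T ∈ distTriang C) (h₁ : LiftC.{w} S T.obj₁)
    (h₃ : LiftC.{w} S T.obj₃) : LiftC.{w} S T.obj₂ := by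
  intro P hPc hP f
  obtain ⟨A₁, hA₁c, hA₁, h, k, hk⟩ := h₃ P hPc hP (f ≫ T.mor₂)
  obtain ⟨N, p, q, hN⟩ := distinguished_cocone_triangle h
  have hhp : h ≫ p = 0 := comp_distTriang_mor_zero₁₂ _ hN
  have hNt := inv_rot_of_distTriang _ (inv_rot_of_distTriang _ hN)
  have hN' : LeftNeg S (N⟦(-1 : ℤ)⟧) :=
    LeftNeg.ext hNt (hA₁.left.shift (-1) (by norm_num)) hP
  have hNc : IsCompactObj.{w} (N⟦(-1 : ℤ)⟧) := IsCompactObj.ext hNt (hA₁c.shift (-1)) hPc
  obtain ⟨l, hl⟩ : ∃ l : N ⟶ T.obj₁⟦(1 : ℤ)⟧, k ≫ T.mor₃ = p ≫ l :=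
    Triangle.yoneda_exact₂ _ hN (k ≫ T.mor₃) (by
      have h0 : T.mor₂ ≫ T.mor₃ = 0 := comp_distTriang_mor_zero₂₃ _ hT
      have : h ≫ k ≫ T.mor₃ = 0 := by
        rw [← assoc, ← hk, assoc, h0, comp_zero]
      exact this)
  obtain ⟨A, hAc, hA, a', b, hab⟩ := h₁.shift_one hNc hN' l
  obtain ⟨A₃, i, r, hA₃⟩ := distinguished_cocone_triangle₂ (p ≫ a')
  have hA₃' : Low S A₃ := Low.ext hA₃ hA hA₁
  have hA₃c : IsCompactObj.{w} A₃ := IsCompactObj.ext hA₃ hAc hA₁c
  have hrw : r ≫ p ≫ a' = 0 := comp_distTriang_mor_zero₂₃ _ hA₃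
  obtain ⟨s, hs⟩ : ∃ s : P ⟶ A₃, h = s ≫ r :=
    Triangle.coyoneda_exact₃ _ hA₃ h (by
      have : h ≫ p ≫ a' = 0 := by rw [← assoc, hhp, zero_comp]
      exact this)
  obtain ⟨t, ht⟩ : ∃ t : A₃ ⟶ T.obj₂, r ≫ k = t ≫ T.mor₂ :=
    Triangle.coyoneda_exact₃ _ hT (r ≫ k) (by
      rw [assoc, hl, hab]
      have : r ≫ p ≫ a' ≫ b⟦(1 : ℤ)⟧' = (r ≫ p ≫ a') ≫ b⟦(1 : ℤ)⟧' := by simp only [assoc]
      rw [this, hrw, zero_comp])
  obtain ⟨u, hu⟩ : ∃ u : P ⟶ T.obj₁, f - s ≫ t = u ≫ T.mor₁ :=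
    Triangle.coyoneda_exact₂ _ hT (f - s ≫ t) (by
      rw [sub_comp, assoc, ← ht, ← assoc, ← hs, hk, sub_self])
  obtain ⟨A₄, hA₄c, hA₄, a₄, b₄, hab₄⟩ := h₁ P hPc hP u
  refine ⟨A₃ ⊞ A₄, IsCompactObj.ext (binaryBiproductTriangle_distinguished A₃ A₄) hA₃c hA₄c,
    hA₃'.sum hA₄, biprod.lift s a₄, biprod.desc t (b₄ ≫ T.mor₁), ?_⟩
  rw [biprod.lift_desc, ← assoc, ← hab₄, ← hu]
  abel

/-- finite sums of morphisms with the lifting property have the lifting property -/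
lemma exists_low_sum {ι : Type w} (J : Finset ι) {P E : C} (f : ι → (P ⟶ E))
    (hf : ∀ i, ∃ (A : C) (_ : IsCompactObj.{w} A) (_ : Low S A) (a : P ⟶ A) (b : A ⟶ E),
      f i = a ≫ b) :
    ∃ (A : C) (_ : IsCompactObj.{w} A) (_ : Low S A) (a : P ⟶ A) (b : A ⟶ E),
      ∑ i ∈ J, f i = a ≫ b := by
  classical
  induction J using Finset.induction_on with
  | empty => exact ⟨0, IsCompactObj.zero, Low.zero, 0, 0, by simp⟩
  | insert i J hi ih =>
    obtain ⟨A, hAc, hA, a, b, hab⟩ := ih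
    obtain ⟨A', hAc', hA', a', b', hab'⟩ := hf i
    refine ⟨A' ⊞ A, IsCompactObj.ext (binaryBiproductTriangle_distinguished A' A) hAc' hAc,
      hA'.sum hA, biprod.lift a' a, biprod.desc b' b, ?_⟩
    rw [Finset.sum_insert hi, biprod.lift_desc, hab, hab']

/-- all shifts have the lifting property -/
def LiftCAll (S : ObjectProperty C) : ObjectProperty C := fun E => ∀ k : ℤ, LiftC.{w} S (E⟦k⟧)

instance : (LiftCAll.{w} S).IsStableUnderRetracts where
  of_retract := by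
    intro X Y r hY k
    exact (hY k).retract (r.map (shiftFunctor C k))

instance : (LiftCAll.{w} S).IsStableUnderShift ℤ where
  isStableUnderShiftBy n := ⟨by
    intro X hX k
    exact (hX (n + k)).retract (Retract.ofIso ((shiftFunctorAdd C n k).app X).symm)⟩

instance : (LiftCAll.{w} S).ContainsZero where
  exists_zero := ⟨0, isZero_zero C, by
    intro k P _ hP f
    have h0 : IsZero ((0 : C)⟦k⟧) := (shiftFunctor C k).map_isZero (isZero_zero C)
    exact ⟨0, IsCompactObj.zero, Low.zero, 0, 0, h0.eq_of_tgt _ _⟩⟩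

instance : (LiftCAll.{w} S).IsTriangulatedClosed₂ where
  ext₂' T hT h₁ h₃ := by
    refine ObjectProperty.le_isoClosure _ _ ?_
    intro k
    exact LiftC.ext (Triangle.shift_distinguished T hT k) (h₁ k) (h₃ k)

instance : (LiftCAll.{w} S).IsTriangulated where

/-- the lifting property is closed under coproducts -/
lemma LiftCAll.coprod {ι : Type w} (X : ι → C) (h : ∀ i, LiftCAll.{w} S (X i)) :
    LiftCAll.{w} S (∐ X) := by
  intro k P hPc hP f
  -- move the shift to the source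
  let e : (P⟦-k⟧)⟦k⟧ ≅ P := (shiftFunctorCompIsoId C (-k) k (by simp)).app P
  obtain ⟨m, hm⟩ := (shiftFunctor C k).map_surjective (e.hom ≫ f)
  obtain ⟨J, g, hg⟩ := hPc (-k) ι X m
  have h1 : f = ∑ i ∈ J, (e.inv ≫ (g i)⟦k⟧') ≫ (Sigma.ι X i)⟦k⟧' := by
    have h2 : f = e.inv ≫ m⟦k⟧' := by rw [hm, e.inv_hom_id_assoc]
    rw [h2, hg, Functor.map_sum, comp_sum]
    refine Finset.sum_congr rfl fun i _ => ?_
    rw [Functor.map_comp, assoc]
  rw [h1]
  refine exists_low_sum J _ fun i => ?_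
  obtain ⟨A, hAc, hA, a, b, hab⟩ := h i k P hPc hP (e.inv ≫ (g i)⟦k⟧')
  exact ⟨A, hAc, hA, a, b ≫ (Sigma.ι X i)⟦k⟧', by rw [← assoc, ← hab]⟩

/-- **Main lemma, localizing form.**  Let `S` be a negative class of compact objects, let `P` be
compact with `Hom(P, Z[i]) = 0`, and let `E` be in the localizing subcategory generated by `S`
with `Hom(Z, E[i]) = 0` (`Z` in `S`, `i > 0`).  Then every morphism `P ⟶ E` is a finite sum of
morphisms which factor through members of `S`. -/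
theorem mem_fac_of_localizing (hS : ∀ Z, S Z → LeftNeg S Z)
    (hc : ∀ Z, S Z → IsCompactObj.{w} Z) {P E : C} (hPc : IsCompactObj.{w} P) (hP : LeftNeg S P)
    (hE : InLocalizing.{w} S E) (hE' : RightNeg S E) (f : P ⟶ E) : f ∈ Fac S P E := by
  have h1 : LiftCAll.{w} S E := hE (LiftCAll.{w} S) (fun Z hZ k => liftC_shift_of_mem hS hc hZ k)
    inferInstance inferInstance (fun ι X hX => LiftCAll.coprod X hX)
  have h2 : LiftC.{w} S E :=
    LiftC.retract (Retract.ofIso ((shiftFunctorZero C ℤ).app E).symm) (h1 0)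
  obtain ⟨A, -, hA, a, b, rfl⟩ := h2 P hPc hP f
  exact Fac.comp_left a (hA.fac E hE' b)

/-- the thick closure is contained in the localizing closure -/
lemma inLocalizing_of_thick {E : C} (h : S.triangEnvelope E) : InLocalizing.{w} S E := by
  intro Q hSQ h1 h2 _
  exact (ObjectProperty.triangEnvelope_le_iff S).2 hSQ E h

end GM97
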