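import Pool.Agent.GM97.Geometry
import Pool.Agent.GM97.Loc

/-!
# Localizing subcategories generated by motives
-/

namespace GM97

open CategoryTheory Category Limits Preadditive Pretriangulated ZeroObject Triangulated

universe v u v₂ u₂ w

variable {DM : Type u} [Category.{v} DM] [HasZeroObject DM] [HasShift DM ℤ]
    [Preadditive DM] [∀ n : ℤ, (shiftFunctor DM n).Additive] [Pretriangulated DM]
    [HasCoproducts.{w} DM]
    {Ab : Type u₂} [Category.{v₂} Ab] [Preadditive Ab] [HasFiniteBiproducts Ab]

namespace Setting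

variable (T : Setting.{v, u, v₂, u₂, w} DM Ab)

/-- `F_A` is in the localizing subcategory (closed under triangles, shifts, direct summands and
arbitrary coproducts) generated by the `M(Y)` with `Y` in `V`. -/
def LocallyGeneratedBy (V : T.Var → Prop) (A : Ab) : Prop :=
  InLocalizing.{w} (T.motives V) (T.F.obj A)

variable {T}

lemma compact_motives (hM : ∀ Y : T.Var, IsCompactObj.{w} (T.M Y)) (V : T.Var → Prop) :
    ∀ N, T.motives V N → IsCompactObj.{w} N := by
  rintro N ⟨Y, -, ⟨e⟩⟩
  exact (hM Y).of_iso e.symm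

theorem albaneseSum_of_locallyGeneratedBy (hM : ∀ Y : T.Var, IsCompactObj.{w} (T.M Y))
    {V : T.Var → Prop} {A : Ab} (h : T.LocallyGeneratedBy V A) : T.AlbaneseSum V A :=
  albaneseSum_of_mem_fac (mem_fac_of_localizing (neg_motives V) (compact_motives hM V)
    (hM (T.und A)) (leftNeg_M V (T.und A)) h (rightNeg_F V A) _)

lemma InLocalizing.mono {S S' : ObjectProperty DM} (h : S ≤ S') {E : DM}
    (hE : InLocalizing.{w} S E) : InLocalizing.{w} S' E :=
  fun Q hQ h1 h2 h3 => hE Q (h.trans hQ) h1 h2 h3

variable [IsTriangulated DM]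

/-- **Main theorem, localizing form.** -/
theorem mainLoc (hM : ∀ Y : T.Var, IsCompactObj.{w} (T.M Y)) (A : Ab) :
    (∀ V : T.Var → Prop, T.LocallyGeneratedBy V A → T.AlbaneseSum V A) ∧
    List.TFAE [
      T.GeneratedBy T.IsCurve A,
      T.LocallyGeneratedBy (fun Y => T.JacobianSummand (T.Alb Y)) A,
      T.JacobianSummand A,
      T.albA A ∈ Fac (T.motives T.IsCurve) (T.M (T.und A)) (T.F.obj A)] := by
  refine ⟨fun V h => albaneseSum_of_locallyGeneratedBy hM h, ?_⟩
  tfae_have 1 → 2 := by
    intro h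
    refine InLocalizing.mono ?_ (inLocalizing_of_thick h)
    rintro N ⟨C, hC, e⟩
    exact ⟨C, jacobianSummand_curve hC, e⟩
  tfae_have 2 → 3 := fun h =>
    jacobianSummand_of_albaneseSum (fun Y hY => hY) (albaneseSum_of_locallyGeneratedBy hM h)
  tfae_have 3 → 1 := generatedBy_of_jacobianSummand
  tfae_have 1 → 4 := fun h => mem_fac h _ _
  tfae_have 4 → 3 := fun h =>
    jacobianSummand_of_albaneseSum (fun Y hY => jacobianSummand_curve hY) (albaneseSum_of_mem_fac h)
  tfae_finish

end Setting

end GM97
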