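import Mathlib

/-!
# Morphisms into objects of a thick subcategory generated by a negative class

`S` is a class of objects of a triangulated category with `Hom(Z, Z'[i]) = 0` for `i > 0`.
If `T` lies in the thick subcategory generated by `S` and `Hom(Z, T[i]) = 0 = Hom(P, Z[i])`
for all `Z` in `S`, `i > 0`, then every morphism `P ⟶ T` is a finite sum of morphisms which
factor through members of `S`.
-/

set_option linter.unusedSectionVars false

namespace GM97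

open CategoryTheory Category Limits Preadditive Pretriangulated ZeroObject Triangulated

universe v u

section

variable {C : Type u} [Category.{v} C] [Preadditive C]

/-- The subgroup of `X ⟶ Y` generated by the morphisms which factor through a member of `S`:
the finite sums `∑ a_j ≫ b_j` with `a_j : X ⟶ Z_j`, `b_j : Z_j ⟶ Y`, `Z_j` in `S`. -/
def Fac (S : ObjectProperty C) (X Y : C) : AddSubgroup (X ⟶ Y) :=
  AddSubgroup.closure {f | ∃ (Z : C) (_ : S Z) (a : X ⟶ Z) (b : Z ⟶ Y), f = a ≫ b}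

variable {S : ObjectProperty C}

lemma Fac.mem {X Y Z : C} (hZ : S Z) (a : X ⟶ Z) (b : Z ⟶ Y) : a ≫ b ∈ Fac S X Y :=
  AddSubgroup.subset_closure ⟨Z, hZ, a, b, rfl⟩

lemma Fac.comp_left {X X' Y : C} (g : X' ⟶ X) {f : X ⟶ Y} (hf : f ∈ Fac S X Y) :
    g ≫ f ∈ Fac S X' Y := by
  refine AddSubgroup.closure_induction (p := fun f _ => g ≫ f ∈ Fac S X' Y) ?_ ?_ ?_ ?_ hf
  · rintro _ ⟨Z, hZ, a, b, rfl⟩
    rw [← assoc]
    exact Fac.mem hZ _ _
  · rw [comp_zero]; exact zero_mem _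
  · intro x y _ _ hx hy
    rw [comp_add]; exact add_mem hx hy
  · intro x _ hx
    rw [comp_neg]; exact neg_mem hx

lemma Fac.comp_right {X Y Y' : C} {f : X ⟶ Y} (hf : f ∈ Fac S X Y) (g : Y ⟶ Y') :
    f ≫ g ∈ Fac S X Y' := by
  refine AddSubgroup.closure_induction (p := fun f _ => f ≫ g ∈ Fac S X Y') ?_ ?_ ?_ ?_ hf
  · rintro _ ⟨Z, hZ, a, b, rfl⟩
    rw [assoc]
    exact Fac.mem hZ _ _
  · rw [zero_comp]; exact zero_mem _
  · intro x y _ _ hx hy
    rw [add_comp]; exact add_mem hx hy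
  · intro x _ hx
    rw [neg_comp]; exact neg_mem hx

end

variable {C : Type u} [Category.{v} C] [HasZeroObject C] [HasShift C ℤ] [Preadditive C]
  [∀ n : ℤ, (shiftFunctor C n).Additive] [Pretriangulated C]

/-- `Hom(P, Z[i]) = 0` for all `Z` in `S` and `i > 0`. -/
def LeftNeg (S : ObjectProperty C) (P : C) : Prop :=
  ∀ (Z : C), S Z → ∀ i : ℤ, 0 < i → ∀ f : P ⟶ Z⟦i⟧, f = 0

/-- `Hom(Z, T[i]) = 0` for all `Z` in `S` and `i > 0`. -/
def RightNeg (S : ObjectProperty C) (T : C) : Prop :=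
  ∀ (Z : C), S Z → ∀ i : ℤ, 0 < i → ∀ f : Z ⟶ T⟦i⟧, f = 0

variable {S : ObjectProperty C}

/-- `Hom(P[n], Z[i]) = Hom(P, Z[i - n])`, in the form of a vanishing statement. -/
lemma shift_hom_eq_zero {P Z : C} (n i j : ℤ) (hij : j + n = i)
    (h : ∀ f : P ⟶ Z⟦j⟧, f = 0) (f : P⟦n⟧ ⟶ Z⟦i⟧) : f = 0 := by
  let e : Z⟦i⟧ ≅ (Z⟦j⟧)⟦n⟧ := (shiftFunctorAdd' C j n i hij).app Z
  have h1 : f ≫ e.hom = 0 := by
    obtain ⟨g, hg⟩ := (shiftFunctor C n).map_surjective (f ≫ e.hom)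
    rw [← hg, h g, Functor.map_zero]
  rw [← cancel_mono e.hom, h1, zero_comp]

/-- `Hom(P[n], T) = Hom(P, T[-n])`, in the form of a vanishing statement. -/
lemma shift_hom_eq_zero' {P T : C} (n j : ℤ) (hij : j + n = 0)
    (h : ∀ f : P ⟶ T⟦j⟧, f = 0) (f : P⟦n⟧ ⟶ T) : f = 0 := by
  let e : T ≅ T⟦(0 : ℤ)⟧ := ((shiftFunctorZero C ℤ).app T).symm
  have h1 : f ≫ e.hom = 0 := shift_hom_eq_zero n 0 j hij h (f ≫ e.hom)
  rw [← cancel_mono e.hom, h1, zero_comp]

/-- The class of the nonpositive objects: left negative, and all morphisms to right negative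
objects are sums of morphisms which factor through `S`. -/
structure Low (S : ObjectProperty C) (A : C) : Prop where
  left : LeftNeg S A
  fac : ∀ T : C, RightNeg S T → ∀ g : A ⟶ T, g ∈ Fac S A T

lemma LeftNeg.shift {A : C} (hA : LeftNeg S A) (k : ℤ) (hk : k ≤ 0) :
    LeftNeg S (A⟦k⟧) := by
  intro Z' hZ' i hi f
  exact shift_hom_eq_zero k i (i - k) (by ring) (hA Z' hZ' (i - k) (by omega)) f

lemma LeftNeg.of_iso {A B : C} (e : A ≅ B) (hA : LeftNeg S A) : LeftNeg S B := by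
  intro Z hZ i hi f
  have := hA Z hZ i hi (e.hom ≫ f)
  rw [← cancel_epi e.hom, this, comp_zero]

lemma Low.of_iso {A B : C} (e : A ≅ B) (hA : Low S A) : Low S B where
  left := hA.left.of_iso e
  fac := by
    intro T hT g
    have := Fac.comp_left e.inv (hA.fac T hT (e.hom ≫ g))
    rwa [← assoc, e.inv_hom_id, id_comp] at this

/-- members of `S` are low -/
lemma low_of_mem (hS : ∀ Z, S Z → LeftNeg S Z) {Z : C} (hZ : S Z) : Low S Z where
  left := hS Z hZ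
  fac := by
    intro T hT g
    have := Fac.mem (S := S) hZ (𝟙 Z) g
    rwa [id_comp] at this

/-- shifts `Z[k]`, `k ≤ 0`, of members are low. -/
lemma low_shift (hS : ∀ Z, S Z → LeftNeg S Z) {Z : C} (hZ : S Z) (k : ℤ) (hk : k ≤ 0) :
    Low S (Z⟦k⟧) := by
  rcases lt_or_eq_of_le hk with h | h
  · refine ⟨(hS Z hZ).shift k hk, ?_⟩
    intro T hT g
    rw [shift_hom_eq_zero' k (-k) (by ring) (hT Z hZ (-k) (by omega)) g]
    exact zero_mem _
  · subst h
    exact (low_of_mem hS hZ).of_iso ((shiftFunctorZero C ℤ).app Z).symm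

/-- LeftNeg is closed under extensions -/
lemma LeftNeg.ext {T : Triangle C} (hT : T ∈ distTriang C) (h₁ : LeftNeg S T.obj₁)
    (h₃ : LeftNeg S T.obj₃) : LeftNeg S T.obj₂ := by
  intro Z hZ i hi f
  have : T.mor₁ ≫ f = 0 := h₁ Z hZ i hi _
  obtain ⟨g, rfl⟩ := T.yoneda_exact₂ hT f this
  rw [h₃ Z hZ i hi g, comp_zero]

/-- Extension of a morphism over a triangle whose third object is `LeftNeg`. -/
lemma LeftNeg.exists_ext {T : Triangle C} (hT : T ∈ distTriang C) (h₃ : LeftNeg S T.obj₃)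
    {Z : C} (hZ : S Z) (a : T.obj₁ ⟶ Z) : ∃ a' : T.obj₂ ⟶ Z, T.mor₁ ≫ a' = a := by
  have h0 : T.invRotate.mor₁ ≫ a = 0 :=
    shift_hom_eq_zero' (-1) 1 (by norm_num) (h₃ Z hZ 1 one_pos) _
  obtain ⟨g, hg⟩ := Triangle.yoneda_exact₂ _ (inv_rot_of_distTriang _ hT) a h0
  exact ⟨g, hg.symm⟩

/-- `Low` is closed under extensions -/
lemma Low.ext {T : Triangle C} (hT : T ∈ distTriang C) (h₁ : Low S T.obj₁)
    (h₃ : Low S T.obj₃) : Low S T.obj₂ where
  left := LeftNeg.ext hT h₁.left h₃.left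
  fac := by
    intro Y hY g
    have key : ∀ f ∈ Fac S T.obj₁ Y, ∃ f' ∈ Fac S T.obj₂ Y, T.mor₁ ≫ f' = f := by
      intro f hf
      refine AddSubgroup.closure_induction
        (p := fun f _ => ∃ f' ∈ Fac S T.obj₂ Y, T.mor₁ ≫ f' = f) ?_ ?_ ?_ ?_ hf
      · rintro _ ⟨Z, hZ, a, b, rfl⟩
        obtain ⟨a', ha'⟩ := LeftNeg.exists_ext hT h₃.left hZ a
        exact ⟨a' ≫ b, Fac.mem hZ _ _, by rw [← assoc, ha']⟩
      · exact ⟨0, zero_mem _, comp_zero⟩
      · rintro x y _ _ ⟨x', hx', rfl⟩ ⟨y', hy', rfl⟩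
        exact ⟨x' + y', add_mem hx' hy', by rw [comp_add]⟩
      · rintro x _ ⟨x', hx', rfl⟩
        exact ⟨-x', neg_mem hx', by rw [comp_neg]⟩
    obtain ⟨f', hf', hf'1⟩ := key _ (h₁.fac Y hY (T.mor₁ ≫ g))
    have h0 : T.mor₁ ≫ (g - f') = 0 := by rw [comp_sub, hf'1, sub_self]
    obtain ⟨c, hc⟩ := T.yoneda_exact₂ hT (g - f') h0
    have hc' : g = f' + T.mor₂ ≫ c := by rw [← hc]; abel
    rw [hc']
    exact add_mem hf' (Fac.comp_left _ (h₃.fac Y hY c))

/-- Binary sums of low objects are low. -/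
lemma Low.sum {A B : C} (hA : Low S A) (hB : Low S B) : Low S (A ⊞ B) :=
  Low.ext (binaryBiproductTriangle_distinguished A B) hA hB

/-- `Lift S E`: every morphism from a `LeftNeg` object to `E` factors through a low object. -/
def Lift (S : ObjectProperty C) (E : C) : Prop :=
  ∀ (P : C), LeftNeg S P → ∀ f : P ⟶ E, ∃ (A : C) (_ : Low S A) (a : P ⟶ A) (b : A ⟶ E),
    f = a ≫ b

lemma lift_shift_of_mem (hS : ∀ Z, S Z → LeftNeg S Z) {Z : C} (hZ : S Z) (k : ℤ) :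
    Lift S (Z⟦k⟧) := by
  intro P hP f
  rcases le_or_gt k 0 with hk | hk
  · exact ⟨Z⟦k⟧, low_shift hS hZ k hk, f, 𝟙 _, (comp_id _).symm⟩
  · have : f = 0 := hP Z hZ k hk f
    refine ⟨Z⟦(0 : ℤ)⟧, low_shift hS hZ 0 le_rfl, 0, 0, ?_⟩
    rw [this, zero_comp]

lemma Lift.retract {E E' : C} (r : Retract E E') (h : Lift S E') : Lift S E := by
  intro P hP f
  obtain ⟨A, hA, a, b, hab⟩ := h P hP (f ≫ r.i)
  refine ⟨A, hA, a, b ≫ r.r, ?_⟩
  rw [← assoc, ← hab, assoc, r.retract, comp_id]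

/-- the shifted form of the lifting property -/
lemma Lift.shift_one {E : C} (h : Lift S E) {N : C} (hN : LeftNeg S (N⟦(-1 : ℤ)⟧))
    (l : N ⟶ E⟦(1 : ℤ)⟧) :
    ∃ (A : C) (_ : Low S A) (a : N ⟶ A⟦(1 : ℤ)⟧) (b : A ⟶ E), l = a ≫ b⟦(1 : ℤ)⟧' := by
  let e : (N⟦(-1 : ℤ)⟧)⟦(1 : ℤ)⟧ ≅ N :=
    (shiftFunctorCompIsoId C (-1 : ℤ) 1 (by norm_num)).app N
  obtain ⟨m, hm⟩ := (shiftFunctor C (1 : ℤ)).map_surjective (e.hom ≫ l)
  obtain ⟨A, hA, a, b, hab⟩ := h _ hN m
  refine ⟨A, hA, e.inv ≫ a⟦(1 : ℤ)⟧', b, ?_⟩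
  rw [assoc, ← Functor.map_comp, ← hab, hm, e.inv_hom_id_assoc]

/-- `Lift` is closed under extensions -/
lemma Lift.ext {T : Triangle C} (hT : T ∈ distTriang C) (h₁ : Lift S T.obj₁)
    (h₃ : Lift S T.obj₃) : Lift S T.obj₂ := by
  intro P hP f
  -- `f ≫ mor₂` factors through a low object `A₁`
  obtain ⟨A₁, hA₁, h, k, hk⟩ := h₃ P hP (f ≫ T.mor₂)
  obtain ⟨N, p, q, hN⟩ := distinguished_cocone_triangle h
  have hhp : h ≫ p = 0 := comp_distTriang_mor_zero₁₂ _ hN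
  -- `N[-1]` is left negative
  have hN' : LeftNeg S (N⟦(-1 : ℤ)⟧) :=
    LeftNeg.ext (inv_rot_of_distTriang _ (inv_rot_of_distTriang _ hN))
      (hA₁.left.shift (-1) (by norm_num)) hP
  -- the boundary map factors through `N`
  obtain ⟨l, hl⟩ : ∃ l : N ⟶ T.obj₁⟦(1 : ℤ)⟧, k ≫ T.mor₃ = p ≫ l :=
    Triangle.yoneda_exact₂ _ hN (k ≫ T.mor₃) (by
      have h0 : T.mor₂ ≫ T.mor₃ = 0 := comp_distTriang_mor_zero₂₃ _ hT
      have : h ≫ k ≫ T.mor₃ = 0 := by
        rw [← assoc, ← hk, assoc, h0, comp_zero]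
      exact this)
  obtain ⟨A, hA, a', b, hab⟩ := h₁.shift_one hN' l
  -- the fibre of `A₁ ⟶ A[1]`
  obtain ⟨A₃, i, r, hA₃⟩ := distinguished_cocone_triangle₂ (p ≫ a')
  have hA₃' : Low S A₃ := Low.ext hA₃ hA hA₁
  have hrw : r ≫ p ≫ a' = 0 := comp_distTriang_mor_zero₂₃ _ hA₃
  obtain ⟨s, hs⟩ : ∃ s : P ⟶ A₃, h = s ≫ r :=
    Triangle.coyoneda_exact₃ _ hA₃ h (by
      have : h ≫ p ≫ a' = 0 := by rw [← assoc, hhp, zero_comp]
      exact this)
  obtain ⟨t, ht⟩ : ∃ t : A₃ ⟶ T.obj₂, r ≫ k = t ≫ T.mor₂ :=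
    Triangle.coyoneda_exact₃ _ hT (r ≫ k) (by
      rw [assoc, hl, hab]
      have : r ≫ p ≫ a' ≫ b⟦(1 : ℤ)⟧' = (r ≫ p ≫ a') ≫ b⟦(1 : ℤ)⟧' := by simp only [assoc]
      rw [this, hrw, zero_comp])
  obtain ⟨u, hu⟩ : ∃ u : P ⟶ T.obj₁, f - s ≫ t = u ≫ T.mor₁ :=
    Triangle.coyoneda_exact₂ _ hT (f - s ≫ t) (by
      rw [sub_comp, assoc, ← ht, ← assoc, ← hs, hk, sub_self])
  obtain ⟨A₄, hA₄, a₄, b₄, hab₄⟩ := h₁ P hP u
  refine ⟨A₃ ⊞ A₄, hA₃'.sum hA₄, biprod.lift s a₄, biprod.desc t (b₄ ≫ T.mor₁), ?_⟩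
  rw [biprod.lift_desc, ← assoc, ← hab₄, ← hu]
  abel

/-- all shifts have the lifting property -/
def LiftAll (S : ObjectProperty C) : ObjectProperty C := fun E => ∀ k : ℤ, Lift S (E⟦k⟧)

lemma Low.zero : Low S (0 : C) where
  left := fun _ _ _ _ f => (isZero_zero C).eq_of_src f 0
  fac := by
    intro T _ g
    rw [(isZero_zero C).eq_of_src g 0]; exact zero_mem _

instance : (LiftAll S).IsStableUnderRetracts where
  of_retract := by
    intro X Y r hY k
    exact (hY k).retract (r.map (shiftFunctor C k))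

instance : (LiftAll S).IsStableUnderShift ℤ where
  isStableUnderShiftBy n := ⟨by
    intro X hX k
    exact (hX (n + k)).retract (Retract.ofIso ((shiftFunctorAdd C n k).app X).symm)⟩

instance : (LiftAll S).ContainsZero where
  exists_zero := ⟨0, isZero_zero C, by
    intro k P hP f
    have h0 : IsZero ((0 : C)⟦k⟧) := (shiftFunctor C k).map_isZero (isZero_zero C)
    exact ⟨0, Low.zero, 0, 0, h0.eq_of_tgt _ _⟩⟩

instance : (LiftAll S).IsTriangulatedClosed₂ where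
  ext₂' T hT h₁ h₃ := by
    refine ObjectProperty.le_isoClosure _ _ ?_
    intro k
    exact Lift.ext (Triangle.shift_distinguished T hT k) (h₁ k) (h₃ k)

instance : (LiftAll S).IsTriangulated where

/-- **Main lemma.**  Let `S` be a negative class and let `E` be in the thick subcategory generated
by `S`.  Every morphism `P ⟶ E` from a left negative object factors through a low object. -/
lemma lift_of_thick (hS : ∀ Z, S Z → LeftNeg S Z) {E : C} (hE : S.triangEnvelope E) :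
    Lift S E := by
  have h1 : S ≤ LiftAll S := fun Z hZ k => lift_shift_of_mem hS hZ k
  have h2 : S.triangEnvelope ≤ LiftAll S := (ObjectProperty.triangEnvelope_le_iff S).2 h1
  exact Lift.retract (Retract.ofIso ((shiftFunctorZero C ℤ).app E).symm) (h2 E hE 0)

/-- **Main lemma, final form.**  If `S` is negative, `E` is in the thick subcategory generated by
`S`, `Hom(P, Z[i]) = 0 = Hom(Z, E[i])` for all `Z` in `S` and `i > 0`, then every morphism
`P ⟶ E` is a finite sum of morphisms which factor through members of `S`. -/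
theorem mem_fac_of_thick (hS : ∀ Z, S Z → LeftNeg S Z) {P E : C} (hP : LeftNeg S P)
    (hE : S.triangEnvelope E) (hE' : RightNeg S E) (f : P ⟶ E) : f ∈ Fac S P E := by
  obtain ⟨A, hA, a, b, rfl⟩ := lift_of_thick hS hE P hP f
  exact Fac.comp_left a (hA.fac E hE' b)

end GM97
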